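import Pool.Agent.W81.RL.Cof

/-!
Chowla's conjecture for the polynomials `h (f + c)`, with `f` an arbitrary nonconstant polynomial,
`h` an arbitrary polynomial, and almost all `c` of the order of magnitude of the values of `f`; more
generally `∑ w(n) g(f(n) + c)` is small for every bounded weight `w` and almost all `c`,
`g = λ, μ`.
-/

set_option autoImplicit false

namespace Pool.Agent.Results.MP_892e4c_nt.ArbitraryCofactor

open Finset Filter Polynomial

/-- Liouville's function `λ(m) = (-1)^Ω(|m|)`, with `λ(0) = 0` -/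
noncomputable def liouville (m : ℤ) : ℤ :=
  if m = 0 then 0 else (-1) ^ (ArithmeticFunction.cardFactors m.natAbs)

/-- the Moebius function of `|m|`, with `μ(0) = 0` -/
def moebius (m : ℤ) : ℤ := ArithmeticFunction.moebius m.natAbs

/-- the sum of `w(n) g(f(n) + c)` over `1 ≤ n ≤ y` -/
noncomputable def wSum (w : ℕ → ℂ) (g : ℤ → ℤ) (f : ℤ[X]) (c y : ℕ) : ℂ :=
  ∑ n ∈ Icc 1 y, w n * ((g (f.eval (n : ℤ) + c) : ℤ) : ℂ)

/-- the sum of `λ(F(n))` over `1 ≤ n ≤ y` -/
noncomputable def chowlaSum (F : ℤ[X]) (y : ℕ) : ℤ := ∑ n ∈ Icc 1 y, liouville (F.eval (n : ℤ))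

lemma liouville_mul (a b : ℤ) : liouville (a * b) = liouville a * liouville b := by
  unfold liouville
  by_cases ha : a = 0
  · simp [ha]
  by_cases hb : b = 0
  · simp [hb]
  rw [if_neg (mul_ne_zero ha hb), if_neg ha, if_neg hb, Int.natAbs_mul,
    ArithmeticFunction.cardFactors_mul (Int.natAbs_ne_zero.2 ha) (Int.natAbs_ne_zero.2 hb), pow_add]

open Classical in
/-- **Chowla's conjecture with an arbitrary cofactor, for almost all constants.** Let `f` be a
nonconstant integer polynomial of degree `d` with positive leading coefficient, `C ≥ 1` and `U`.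
There is `x₀` such that for all `x ≥ x₀` and all `A` with `x^d / C ≤ A ≤ C x^d`:
(1) for every function `w` with `|w| ≤ 1` and `g = λ` or `μ`, all but at most `A / (log x)^U` of the
integers `1 ≤ c ≤ A` satisfy `|∑_{n ≤ y} w(n) g(f(n) + c)| ≤ x / (log x)^U` for all `y ≤ x`;
(2) for every integer polynomial `h` (which may depend on `x`), all but at most `A / (log x)^U` of the
integers `1 ≤ c ≤ A` satisfy `|∑_{n ≤ y} λ(h(n) (f(n) + c))| ≤ x / (log x)^U` for all `y ≤ x`. -/
theorem result (f : ℤ[X]) (hf : 1 ≤ f.natDegree) (hl : 0 < f.leadingCoeff) (C : ℕ) (hC : 1 ≤ C)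
    (U : ℕ) : ∃ x0 : ℕ, ∀ x : ℕ, x0 ≤ x → ∀ A : ℕ, A ≤ C * x ^ f.natDegree →
    x ^ f.natDegree ≤ C * A →
    (∀ w : ℕ → ℂ, (∀ n, ‖w n‖ ≤ 1) → ∀ g : ℤ → ℤ, (g = liouville ∨ g = moebius) →
      ((((Icc 1 A).filter (fun c : ℕ => ∃ y ≤ x,
        (x : ℝ) / Real.log x ^ U < ‖wSum w g f c y‖)).card : ℕ) : ℝ) ≤ A / Real.log x ^ U) ∧
    (∀ h : ℤ[X],
      ((((Icc 1 A).filter (fun c : ℕ => ∃ y ≤ x, (x : ℝ) / Real.log x ^ U <
        |((chowlaSum (h * (f + Polynomial.C (c : ℤ))) y : ℤ) : ℝ)|)).card : ℕ) : ℝ) ≤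
        A / Real.log x ^ U) := by
  obtain ⟨x0, hx0⟩ := eventually_atTop.mp
    ((Pool.Agent.W81.RL.cof Pool.Agent.H373R2.T7.liR Pool.Agent.H373R2.T7.liR_norm
      Pool.Agent.H373R2.T7.sup_liou f hf hl C hC U).and
    (Pool.Agent.W81.RL.cof Pool.Agent.H373R2.T7.muC Pool.Agent.H373R2.T7.muC_norm
      Pool.Agent.H373R2.T7.sup_muC f hf hl C hC U))
  refine ⟨x0, fun x hx A hA1 hA2 => ?_⟩
  obtain ⟨hL1, hL2⟩ := hx0 x hx
  have hA : ∀ w : ℕ → ℂ, (∀ n, ‖w n‖ ≤ 1) → ∀ g : ℤ → ℤ, (g = liouville ∨ g = moebius) →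
      ((((Icc 1 A).filter (fun c : ℕ => ∃ y ≤ x,
        (x : ℝ) / Real.log x ^ U < ‖wSum w g f c y‖)).card : ℕ) : ℝ) ≤ A / Real.log x ^ U := by
    intro w hw g hg
    rcases hg with rfl | rfl
    · obtain ⟨Bad, hBad, hgood⟩ := hL1 A hA1 hA2 w hw
      refine le_trans ?_ hBad
      have hsub : (Icc 1 A).filter (fun c : ℕ => ∃ y ≤ x,
          (x : ℝ) / Real.log x ^ U < ‖wSum w liouville f c y‖) ⊆ Bad := by
        intro c hc
        rw [mem_filter] at hc
        obtain ⟨hc1, y, hy, hlt⟩ := hc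
        by_contra hcon
        have h3 := hgood c hc1 hcon y hy
        have h4 : wSum w liouville f c y =
            ∑ n ∈ Icc 1 y, w n * Pool.Agent.W81.RL.habs Pool.Agent.H373R2.T7.liR (f.eval (n : ℤ) + c) := by
          unfold wSum
          exact sum_congr rfl fun n _ => by rw [← Pool.Agent.W81.RL.lamI'_eq]; rfl
        rw [h4] at hlt
        linarith
      exact_mod_cast card_le_card hsub
    · obtain ⟨Bad, hBad, hgood⟩ := hL2 A hA1 hA2 w hw
      refine le_trans ?_ hBad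
      have hsub : (Icc 1 A).filter (fun c : ℕ => ∃ y ≤ x,
          (x : ℝ) / Real.log x ^ U < ‖wSum w moebius f c y‖) ⊆ Bad := by
        intro c hc
        rw [mem_filter] at hc
        obtain ⟨hc1, y, hy, hlt⟩ := hc
        by_contra hcon
        have h3 := hgood c hc1 hcon y hy
        have h4 : wSum w moebius f c y =
            ∑ n ∈ Icc 1 y, w n * Pool.Agent.W81.RL.habs Pool.Agent.H373R2.T7.muC (f.eval (n : ℤ) + c) := by
          unfold wSum
          exact sum_congr rfl fun n _ => by rw [← Pool.Agent.W81.RL.muI'_eq]; rfl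
        rw [h4] at hlt
        linarith
      exact_mod_cast card_le_card hsub
  refine ⟨hA, fun h => ?_⟩
  set w : ℕ → ℂ := fun n => ((liouville (h.eval (n : ℤ)) : ℤ) : ℂ) with hw
  have hw1 : ∀ n, ‖w n‖ ≤ 1 := by
    intro n
    simp only [hw]
    unfold liouville
    split_ifs
    · simp
    · push_cast
      rw [norm_pow, norm_neg, norm_one, one_pow]
  refine le_trans (le_of_eq ?_) (hA w hw1 liouville (Or.inl rfl))
  rw [Nat.cast_inj]
  apply congrArg Finset.card
  apply filter_congr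
  intro c _
  have h1 : ∀ y : ℕ, |((chowlaSum (h * (f + Polynomial.C (c : ℤ))) y : ℤ) : ℝ)| = ‖wSum w liouville f c y‖ := by
    intro y
    have h2 : wSum w liouville f c y = ((chowlaSum (h * (f + Polynomial.C (c : ℤ))) y : ℤ) : ℂ) := by
      unfold wSum chowlaSum
      push_cast
      refine sum_congr rfl fun n _ => ?_
      rw [eval_mul, liouville_mul, eval_add, eval_C]
      push_cast
      rfl
    rw [h2, Complex.norm_intCast]
  constructor
  · rintro ⟨y, hy, h2⟩
    exact ⟨y, hy, by rw [← h1]; exact h2⟩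
  · rintro ⟨y, hy, h2⟩
    exact ⟨y, hy, by rw [h1]; exact h2⟩

end Pool.Agent.Results.MP_892e4c_nt.ArbitraryCofactor
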