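import Pool.Agent.W251.EG.Out6

/-!
The Moebius function at the values of the nine polynomials `n^2+tn+c` of class number one: weighted
sums over residue classes at almost all scales, and the number of values of each sign.
-/

set_option autoImplicit false

namespace Pool.Agent.Results.MP_892e4c_nt.MoebiusAlmostAllScales

open Finset Filter

open scoped Classical in
/-- the set of the positive integers `X` with `P X` has logarithmic density `0` -/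
def LogNull (P : ℕ → Prop) : Prop :=
  Tendsto (fun Z : ℕ => (∑ X ∈ (Icc 1 Z).filter P, 1 / (X : ℝ)) / Real.log Z) atTop (nhds 0)

/-- the number of the integers `n ≤ X`, `n ≥ 0`, `n ≥ 1 - t`, `n ≡ a mod q`, with
`μ(n^2+tn+c) = e` -/
def count (t c q a : ℕ) (e : ℤ) (X : ℕ) : ℕ :=
  ((range (X + 1)).filter (fun n : ℕ => 1 ≤ n + t ∧ n ≡ a [MOD q] ∧
    ArithmeticFunction.moebius (n ^ 2 + t * n + c) = e)).card

/-- the nine pairs `(t, c)` with `t` in `{0, 1}` and `x^2+tx+c` of discriminant `-4`, `-8`, `-3`,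
`-7`, `-11`, `-19`, `-43`, `-67`, `-163` -/
def nine : List (ℕ × ℕ) :=
  [(0, 1), (0, 2), (1, 1), (1, 2), (1, 3), (1, 5), (1, 11), (1, 17), (1, 41)]

open scoped Classical in
/-- Let `(t, c)` be one of the nine pairs, `F(n) = n^2+tn+c`, and let `a` be a residue class modulo
`q ≥ 1`. The integers `n` are `≥ 0` and `≥ 1 - t`.

1. For `0 ≤ s₁ < s₂ ≤ 1`, `0 ≤ s₃ < s₄ ≤ 1` and an integer `r` let `w_X(n)` be the number of
  factorisations `F(n) = d d'` with `s₁ X < d ≤ s₂ X`, `s₃ X < d' ≤ s₄ X`, `d ≡ r mod q`. For every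
  `ε > 0` the set of all `X` with `|∑_{n ≤ X, n ≡ a mod q} μ(F(n)) w_X(n)| > ε X` has logarithmic
  density `0`.

Suppose that `l^2 ∤ F(a)` for all primes `l` with `l^2 ∣ q`. Then:

2. For some `c₁ > 0` and all large `X` the squarefree `F(n)` with `n ≤ X`, `n ≡ a mod q`, counted
  with multiplicity the number of factorisations `F(n) = d d'` with `d, d' ≤ X`, are at least `c₁ X`
  in number.
3. For each sign `e`, every `ε > 0` and almost all `X`, at least `X / (log X)^(2 log 2 + ε)` of the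
  `n ≤ X`, `n ≡ a mod q`, have `μ(F(n)) = e`.
4. For each sign `e`, every `δ > 0` and all large `X`, at least `X^(1 - δ)` of the `n ≤ X`,
  `n ≡ a mod q`, have `μ(F(n)) = e`. -/
theorem result (t c : ℕ) (htc : (t, c) ∈ nine) (q : ℕ) (hq : 1 ≤ q) (a : ℕ) :
    (∀ (r : ℕ) (s₁ s₂ s₃ s₄ : ℝ), 0 ≤ s₁ → s₁ < s₂ → s₂ ≤ 1 → 0 ≤ s₃ → s₃ < s₄ → s₄ ≤ 1 →
      ∀ ε : ℝ, 0 < ε → LogNull (fun X : ℕ => ε * X <
        |∑ n ∈ (range (X + 1)).filter (fun n => 1 ≤ n + t ∧ n ≡ a [MOD q]),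
          (ArithmeticFunction.moebius (n ^ 2 + t * n + c) : ℝ) *
          (((n ^ 2 + t * n + c).divisors.filter (fun d : ℕ => d ≡ r [MOD q] ∧ s₁ * X < (d : ℝ) ∧
            (d : ℝ) ≤ s₂ * X ∧ s₃ * X < (((n ^ 2 + t * n + c) / d : ℕ) : ℝ) ∧
            (((n ^ 2 + t * n + c) / d : ℕ) : ℝ) ≤ s₄ * X)).card : ℝ)|)) ∧
    ((∀ l : ℕ, l.Prime → l ^ 2 ∣ q → ¬ l ^ 2 ∣ a ^ 2 + t * a + c) →
      (∃ c₁ : ℝ, 0 < c₁ ∧ ∃ X₀ : ℕ, ∀ X : ℕ, X₀ ≤ X →
        c₁ * X ≤ ∑ n ∈ (range (X + 1)).filter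
          (fun n => 1 ≤ n + t ∧ n ≡ a [MOD q] ∧ Squarefree (n ^ 2 + t * n + c)),
          (((n ^ 2 + t * n + c).divisors.filter (fun d : ℕ => d ≤ X ∧
            (n ^ 2 + t * n + c) / d ≤ X)).card : ℝ)) ∧
      ∀ e : ℤ, e = 1 ∨ e = -1 →
        (∀ ε : ℝ, 0 < ε →
          LogNull (fun X => (count t c q a e X : ℝ) < X / Real.log X ^ (2 * Real.log 2 + ε))) ∧
        ∀ δ : ℝ, 0 < δ → ∃ X₀ : ℕ, ∀ X : ℕ, X₀ ≤ X → (X : ℝ) ^ (1 - δ) ≤ count t c q a e X) := by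
  obtain ⟨f, χ, hF⟩ := Pool.Agent.W251.EG.fd9 t c htc
  have hS := Pool.Agent.W251.EG.sps9 t c htc
  have hc : ∀ (e : ℤ) (X : ℕ), count t c q a e X = Pool.Agent.W251.EG.cm t c q a e X := by
    intro e X
    unfold count Pool.Agent.W251.EG.cm
    congr 1
  refine ⟨fun r s₁ s₂ s₃ s₄ h1 h2 h3 h4 h5 h6 ε hε =>
    Pool.Agent.W251.EG.outMG hF q hq a r s₁ s₂ s₃ s₄ ε h1 h2 h3 h4 h5 h6 hε, fun hqa =>
    ⟨Pool.Agent.W251.EG.outSG hF hS q a hq hqa, fun e he => ⟨fun ε hε => ?_, fun δ hδ => ?_⟩⟩⟩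
  · have := Pool.Agent.W251.EG.outMC hF hS q a hq hqa e he ε hε
    unfold LogNull
    simp only [hc]
    exact this
  · have := Pool.Agent.W251.EG.all_of (Pool.Agent.W251.EG.cm_mono t c q a e)
      (fun ε hε => Pool.Agent.W251.EG.outMC hF hS q a hq hqa e he ε hε) δ hδ
    simp only [hc]
    exact this

end Pool.Agent.Results.MP_892e4c_nt.MoebiusAlmostAllScales
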