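import Pool.Agent.W147.LF.Quad1

set_option autoImplicit false

/-! # The Moebius function at `f ^ 2 + D` over `F_q[t]`, `q` odd

If `4 D + (D')^2` is not a constant times a square then `f ^ 2 + D` is squarefree with an even
number of prime factors, and also squarefree with an odd number of prime factors, for monic `f`
of arbitrarily large degree.

Proof: `f = X + E` with `E` a large `p`-power; the derivative of `f ^ 2 + D` is
`2 (X + E + D' / 2)`, modulo which `f ^ 2 + D` is `D + (D' / 2) ^ 2`; by Pellet and Stickelberger
and reciprocity the sign depends only on `E` modulo that polynomial, and it is not constant. -/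

open Polynomial Pool.Agent.W147.LF

namespace Pool.Agent.Results.MP_892e4c_nt.PolynomialModelQuadratics

theorem result (K : Type) [Field K] [Fintype K] (hK : Odd (Fintype.card K)) (D : K[X])
    (hD : ∀ (c : K) (z : K[X]), 4 * D + (derivative D) ^ 2 ≠ C c * z ^ 2)
    (ε : ℤ) (hε : ε = 1 ∨ ε = -1) (n₀ : ℕ) :
    ∃ f : K[X], f.Monic ∧ n₀ ≤ f.natDegree ∧ mu (f ^ 2 + D) = ε := by
  apply Pool.Agent.W147.LF.quad K hK D _ ε hε n₀
  intro c z h
  apply hD (4 * c) z
  have h2 : (2 : K[X]) * C (2⁻¹ : K) = 1 := by
    have := C_two_half (K := K) hK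
    rwa [C_two'] at this
  have h4 : C (4 * c) = 4 * C c := by
    rw [C_mul]
    congr 1
  rw [h4]
  linear_combination 4 * h - (derivative D) ^ 2 * (2 * C (2⁻¹ : K) + 1) * h2

end Pool.Agent.Results.MP_892e4c_nt.PolynomialModelQuadratics
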